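import Pool.Agent.Helper61.LN.Goals

/-!
# PROJECT LN (MP_c65973_gt): packet INV, invariance of the dihedral colouring functor
-/

set_option autoImplicit false

namespace Pool.Agent.Helper10.LN.INV

open Pool.Agent.Helper31.Sk Pool.Agent.Helper35.Skl Pool.Agent.Helper61.LN

section
variable {X : Type}

/-! ### values -/

theorem insF_i (i : ℕ) (a b : X) (x : ℕ → X) : insF i a b x i = a := by
  simp [insF]

theorem insF_s (i : ℕ) (a b : X) (x : ℕ → X) : insF i a b x (i + 1) = b := by
  simp [insF]

theorem insF_lt {i t : ℕ} (h : t < i) (a b : X) (x : ℕ → X) : insF i a b x t = x t := by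
  simp [insF, h]

theorem insF_ge {i t : ℕ} (h : i + 2 ≤ t) (a b : X) (x : ℕ → X) : insF i a b x t = x (t - 2) := by
  have h1 : ¬ t < i := by omega
  have h2 : ¬ t = i := by omega
  have h3 : ¬ t = i + 1 := by omega
  simp [insF, h1, h2, h3]

theorem delF_lt {i t : ℕ} (h : t < i) (x : ℕ → X) : delF i x t = x t := by
  simp [delF, h]

theorem delF_ge {i t : ℕ} (h : i ≤ t) (x : ℕ → X) : delF i x t = x (t + 2) := by
  have h1 : ¬ t < i := by omega
  simp [delF, h1]

theorem setF_i (i : ℕ) (a b : X) (x : ℕ → X) : setF i a b x i = a := by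
  simp [setF]

theorem setF_s (i : ℕ) (a b : X) (x : ℕ → X) : setF i a b x (i + 1) = b := by
  simp [setF]

theorem setF_ne {i t : ℕ} (h1 : t ≠ i) (h2 : t ≠ i + 1) (a b : X) (x : ℕ → X) :
    setF i a b x t = x t := by
  simp [setF, h1, h2]

/-! ### commutation -/

theorem ii (i j : ℕ) (a b c d : X) (x : ℕ → X) :
    insF (i + 2 + j) a b (insF i c d x) = insF i c d (insF (i + j) a b x) := by
  funext t
  simp only [insF]
  split_ifs <;> first | rfl | (exfalso; omega) | (congr 1; omega)

theorem di (i j : ℕ) (c d : X) (x : ℕ → X) :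
    delF (i + 2 + j) (insF i c d x) = insF i c d (delF (i + j) x) := by
  funext t
  simp only [insF, delF]
  split_ifs <;> first | rfl | (exfalso; omega) | (congr 1; omega)

theorem si (i j : ℕ) (a b c d : X) (x : ℕ → X) :
    setF (i + 2 + j) a b (insF i c d x) = insF i c d (setF (i + j) a b x) := by
  funext t
  simp only [insF, setF]
  split_ifs <;> first | rfl | (exfalso; omega) | (congr 1; omega)

theorem id (i j : ℕ) (a b : X) (x : ℕ → X) :
    insF (i + j) a b (delF i x) = delF i (insF (i + 2 + j) a b x) := by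
  funext t
  simp only [insF, delF]
  split_ifs <;> first | rfl | (exfalso; omega) | (congr 1; omega)

theorem dd (i j : ℕ) (x : ℕ → X) :
    delF (i + j) (delF i x) = delF i (delF (i + 2 + j) x) := by
  funext t
  simp only [delF]
  split_ifs <;> first | rfl | (exfalso; omega) | (congr 1; omega)

theorem sd (i j : ℕ) (a b : X) (x : ℕ → X) :
    setF (i + j) a b (delF i x) = delF i (setF (i + 2 + j) a b x) := by
  funext t
  simp only [setF, delF]
  split_ifs <;> first | rfl | (exfalso; omega) | (congr 1; omega)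

theorem is (i j : ℕ) (a b c d : X) (x : ℕ → X) :
    insF (i + 2 + j) a b (setF i c d x) = setF i c d (insF (i + 2 + j) a b x) := by
  funext t
  simp only [insF, setF]
  split_ifs <;> first | rfl | (exfalso; omega) | (congr 1; omega)

theorem ds (i j : ℕ) (c d : X) (x : ℕ → X) :
    delF (i + 2 + j) (setF i c d x) = setF i c d (delF (i + 2 + j) x) := by
  funext t
  simp only [delF, setF]
  split_ifs <;> first | rfl | (exfalso; omega) | (congr 1; omega)

theorem ss (i j : ℕ) (a b c d : X) (x : ℕ → X) :
    setF (i + 2 + j) a b (setF i c d x) = setF i c d (setF (i + 2 + j) a b x) := by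
  funext t
  simp only [setF]
  split_ifs <;> first | rfl | (exfalso; omega) | (congr 1; omega)

/-! values at distant places -/

theorem v1 (i j : ℕ) (c d : X) (x : ℕ → X) : insF i c d x (i + 2 + j) = x (i + j) := by
  rw [insF_ge (by omega)]
  congr 1
  omega

theorem v2 (i j : ℕ) (c d : X) (x : ℕ → X) : insF i c d x (i + 2 + j + 1) = x (i + j + 1) := by
  rw [insF_ge (by omega)]
  congr 1
  omega

theorem v3 (i j : ℕ) (x : ℕ → X) : delF i x (i + j) = x (i + 2 + j) := by
  rw [delF_ge (by omega)]
  congr 1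
  omega

theorem v4 (i j : ℕ) (x : ℕ → X) : delF i x (i + j + 1) = x (i + 2 + j + 1) := by
  rw [delF_ge (by omega)]
  congr 1
  omega

theorem v5 (i j : ℕ) (a b : X) (x : ℕ → X) : setF i a b x (i + 2 + j) = x (i + 2 + j) :=
  setF_ne (by omega) (by omega) _ _ _

theorem v6 (i j : ℕ) (a b : X) (x : ℕ → X) : setF i a b x (i + 2 + j + 1) = x (i + 2 + j + 1) :=
  setF_ne (by omega) (by omega) _ _ _

theorem v7 (i j : ℕ) (a b : X) (x : ℕ → X) : insF (i + 2 + j) a b x i = x i :=
  insF_lt (by omega) _ _ _

theorem v8 (i j : ℕ) (a b : X) (x : ℕ → X) : insF (i + 2 + j) a b x (i + 1) = x (i + 1) :=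
  insF_lt (by omega) _ _ _

theorem v9 (i j : ℕ) (x : ℕ → X) : delF (i + 2 + j) x i = x i := delF_lt (by omega) _

theorem v10 (i j : ℕ) (x : ℕ → X) : delF (i + 2 + j) x (i + 1) = x (i + 1) := delF_lt (by omega) _

theorem v11 (i j : ℕ) (a b : X) (x : ℕ → X) : setF (i + 2 + j) a b x i = x i :=
  setF_ne (by omega) (by omega) _ _ _

theorem v12 (i j : ℕ) (a b : X) (x : ℕ → X) : setF (i + 2 + j) a b x (i + 1) = x (i + 1) :=
  setF_ne (by omega) (by omega) _ _ _

end

section
variable {X : Type} [AddCommGroup X] [Fintype X] [DecidableEq X]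

theorem comm_op (i j : ℕ) (g h : Gen) (φ : (ℕ → X) → ℕ) (x : ℕ → X) :
    op i g (op (i + g.tgt + j) h φ) x = op (i + g.src + j) h (op i g φ) x := by
  cases g <;> cases h <;> simp only [op, Gen.src, Gen.tgt, add_zero, v1, v2, v3, v4, v5, v6, v7, v8,
    v9, v10, v11, v12, ii, di, si, id, dd, sd, is, ds, ss]
  · exact Finset.sum_comm
  · split_ifs
    · rfl
    · exact Finset.sum_const_zero
  · split_ifs
    · rfl
    · exact Finset.sum_const_zero.symm
  · split_ifs <;> rfl

/-! ### the elementary isotopies -/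

theorem zig (i : ℕ) (φ : (ℕ → X) → ℕ) (x : ℕ → X) :
    op i .cup (op (i + 1) .cap φ) x = φ x := by
  simp only [op]
  have h : ∀ c : X, (if insF i c c x (i + 1) = insF i c c x (i + 1 + 1) then
      φ (delF (i + 1) (insF i c c x)) else 0) = if c = x i then φ x else 0 := by
    intro c
    rw [insF_s, insF_ge (by omega)]
    have e : i + 1 + 1 - 2 = i := by omega
    rw [e]
    split_ifs with hc
    · congr 1
      funext t
      simp only [insF, delF]
      split_ifs with h1 h2 h3 <;> first | rfl | (exfalso; omega) | (subst h3; exact hc) | (congr 1; omega)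
    · rfl
  rw [Finset.sum_congr rfl (fun c _ => h c)]
  simp

theorem zag (i : ℕ) (φ : (ℕ → X) → ℕ) (x : ℕ → X) :
    op (i + 1) .cup (op i .cap φ) x = φ x := by
  simp only [op]
  have h : ∀ c : X, (if insF (i + 1) c c x i = insF (i + 1) c c x (i + 1) then
      φ (delF i (insF (i + 1) c c x)) else 0) = if x i = c then φ x else 0 := by
    intro c
    rw [insF_i, insF_lt (by omega)]
    split_ifs with hc
    · congr 1
      funext t
      simp only [insF, delF]
      split_ifs with h1 h2 h3 h4 h5 <;>
        first | rfl | (exfalso; omega) | (have ht : t = i := by omega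
                                          subst ht; exact hc.symm) | (congr 1; omega)
    · rfl
  rw [Finset.sum_congr rfl (fun c _ => h c)]
  simp

theorem capP (i : ℕ) (φ : (ℕ → X) → ℕ) (x : ℕ → X) :
    op (i + 1) .pos (op i .cap φ) x = op i .neg (op (i + 1) .cap φ) x := by
  simp only [op]
  rw [setF_i, setF_s, setF_ne (by omega) (by omega), setF_ne (t := i + 1 + 1) (by omega) (by omega)]
  have hc : (x i = x (i + 1) + x (i + 1) - x (i + 1 + 1)) ↔
      (x (i + 1) + x (i + 1) - x i = x (i + 1 + 1)) := by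
    constructor
    · intro h
      rw [h]
      abel
    · intro h
      rw [← h]
      abel
  have hf : delF i (setF (i + 1) (x (i + 1) + x (i + 1) - x (i + 1 + 1)) (x (i + 1)) x) =
      delF (i + 1) (setF i (x (i + 1)) (x (i + 1) + x (i + 1) - x i) x) := by
    funext t
    simp only [setF, delF]
    split_ifs <;> first | rfl | (exfalso; omega) | (congr 1; omega)
  rw [hf]
  simp only [hc]

theorem capN (i : ℕ) (φ : (ℕ → X) → ℕ) (x : ℕ → X) :
    op (i + 1) .neg (op i .cap φ) x = op i .pos (op (i + 1) .cap φ) x := by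
  simp only [op]
  rw [setF_i, setF_s, setF_ne (by omega) (by omega), setF_ne (t := i + 1 + 1) (by omega) (by omega)]
  split_ifs with hc
  · congr 1
    funext t
    simp only [setF, delF]
    split_ifs <;> first | rfl | (exfalso; omega) | (rw [hc]) | (congr 1; omega)
  · rfl

theorem cupP (i : ℕ) (φ : (ℕ → X) → ℕ) (x : ℕ → X) :
    op i .cup (op (i + 1) .pos φ) x = op (i + 1) .cup (op i .neg φ) x := by
  simp only [op]
  refine Finset.sum_congr rfl fun c _ => ?_
  rw [insF_s, insF_i, insF_ge (t := i + 1 + 1) (by omega), insF_lt (t := i) (by omega)]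
  have e : i + 1 + 1 - 2 = i := by omega
  rw [e]
  congr 1
  funext t
  simp only [setF, insF]
  split_ifs <;> first | rfl | (exfalso; omega) | (congr 1; omega)

theorem cupN (i : ℕ) (φ : (ℕ → X) → ℕ) (x : ℕ → X) :
    op i .cup (op (i + 1) .neg φ) x = op (i + 1) .cup (op i .pos φ) x := by
  simp only [op]
  rw [← Equiv.sum_comp (Equiv.subLeft (x i + x i))]
  refine Finset.sum_congr rfl fun c _ => ?_
  simp only [Equiv.subLeft_apply]
  rw [insF_s, insF_i, insF_ge (t := i + 1 + 1) (by omega), insF_lt (t := i) (by omega)]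
  have e : i + 1 + 1 - 2 = i := by omega
  rw [e]
  have e2 : x i + x i - (x i + x i - c) = c := by abel
  rw [e2]
  congr 1
  funext t
  simp only [setF, insF]
  split_ifs <;> first | rfl | (exfalso; omega) | (congr 1; omega)

theorem r1cupP (i : ℕ) (φ : (ℕ → X) → ℕ) (x : ℕ → X) :
    op i .cup (op i .pos φ) x = op i .cup φ x := by
  simp only [op]
  refine Finset.sum_congr rfl fun c _ => ?_
  rw [insF_s, insF_i]
  have e : c + c - c = c := by abel
  rw [e]
  congr 1
  funext t
  simp only [setF, insF]
  split_ifs <;> first | rfl | (exfalso; omega) | (congr 1; omega)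

theorem r1cupN (i : ℕ) (φ : (ℕ → X) → ℕ) (x : ℕ → X) :
    op i .cup (op i .neg φ) x = op i .cup φ x := by
  simp only [op]
  refine Finset.sum_congr rfl fun c _ => ?_
  rw [insF_s, insF_i]
  have e : c + c - c = c := by abel
  rw [e]
  congr 1
  funext t
  simp only [setF, insF]
  split_ifs <;> first | rfl | (exfalso; omega) | (congr 1; omega)

theorem del_set (i : ℕ) (a b : X) (x : ℕ → X) : delF i (setF i a b x) = delF i x := by
  funext t
  simp only [setF, delF]
  split_ifs <;> first | rfl | (exfalso; omega) | (congr 1; omega)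

theorem r1capP (i : ℕ) (φ : (ℕ → X) → ℕ) (x : ℕ → X) :
    op i .pos (op i .cap φ) x = op i .cap φ x := by
  simp only [op]
  rw [setF_i, setF_s, del_set]
  have hc : (x i + x i - x (i + 1) = x i) ↔ (x i = x (i + 1)) := by
    constructor
    · intro h
      have : x i + x i - x (i + 1) + x (i + 1) - x i = x i + x (i + 1) - x i := by rw [h]
      have h1 : x i + x i - x (i + 1) + x (i + 1) - x i = x i := by abel
      have h2 : x i + x (i + 1) - x i = x (i + 1) := by abel
      rw [h1, h2] at this
      exact this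
    · intro h
      rw [← h]
      abel
  simp only [hc]

theorem r1capN (i : ℕ) (φ : (ℕ → X) → ℕ) (x : ℕ → X) :
    op i .neg (op i .cap φ) x = op i .cap φ x := by
  simp only [op]
  rw [setF_i, setF_s, del_set]
  have hc : (x (i + 1) = x (i + 1) + x (i + 1) - x i) ↔ (x i = x (i + 1)) := by
    constructor
    · intro h
      have : x (i + 1) + x i - x (i + 1) = x (i + 1) + x (i + 1) - x i + x i - x (i + 1) := by
        rw [← h]
      have h1 : x (i + 1) + x i - x (i + 1) = x i := by abel
      have h2 : x (i + 1) + x (i + 1) - x i + x i - x (i + 1) = x (i + 1) := by abel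
      rw [h1, h2] at this
      exact this
    · intro h
      rw [h]
      abel
  simp only [hc]

theorem set_set (i : ℕ) (a b c d : X) (x : ℕ → X) :
    setF i a b (setF i c d x) = setF i a b x := by
  funext t
  simp only [setF]
  split_ifs <;> rfl

theorem set_self (i : ℕ) (x : ℕ → X) : setF i (x i) (x (i + 1)) x = x := by
  funext t
  simp only [setF]
  split_ifs with h1 h2
  · rw [h1]
  · rw [h2]
  · rfl

theorem r2P (i : ℕ) (φ : (ℕ → X) → ℕ) (x : ℕ → X) :
    op i .pos (op i .neg φ) x = φ x := by
  simp only [op]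
  rw [setF_i, setF_s, set_set]
  have e : x i + x i - (x i + x i - x (i + 1)) = x (i + 1) := by abel
  rw [e, set_self]

theorem r2N (i : ℕ) (φ : (ℕ → X) → ℕ) (x : ℕ → X) :
    op i .neg (op i .pos φ) x = φ x := by
  simp only [op]
  rw [setF_i, setF_s, set_set]
  have e : x (i + 1) + x (i + 1) - (x (i + 1) + x (i + 1) - x i) = x i := by abel
  rw [e, set_self]

theorem r3P (i : ℕ) (φ : (ℕ → X) → ℕ) (x : ℕ → X) :
    op i .pos (op (i + 1) .pos (op i .pos φ)) x = op (i + 1) .pos (op i .pos (op (i + 1) .pos φ)) x := by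
  simp only [op]
  congr 1
  funext t
  rcases Nat.lt_or_ge t i with h | h
  · simp only [setF, show ¬ t = i by omega, show ¬ t = i + 1 by omega,
      show ¬ t = i + 1 + 1 by omega, if_false]
  rcases Nat.lt_or_ge (i + 2) t with h' | h'
  · simp only [setF, show ¬ t = i by omega, show ¬ t = i + 1 by omega,
      show ¬ t = i + 1 + 1 by omega, if_false]
  have n1 : ¬ i = i + 1 := by omega
  have n2 : ¬ i = i + 1 + 1 := by omega
  have n3 : ¬ i + 1 = i := by omega
  have n4 : ¬ i + 1 + 1 = i := by omega
  have n5 : ¬ i + 1 = i + 1 + 1 := by omega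
  have n6 : ¬ i + 1 + 1 = i + 1 := by omega
  obtain h2 | h2 | h2 : t = i ∨ t = i + 1 ∨ t = i + 1 + 1 := by omega
  all_goals
    rw [h2]
    simp only [setF, n1, n2, n3, n4, n5, n6, if_true, if_false]
  all_goals abel

theorem r3N (i : ℕ) (φ : (ℕ → X) → ℕ) (x : ℕ → X) :
    op i .neg (op (i + 1) .neg (op i .neg φ)) x = op (i + 1) .neg (op i .neg (op (i + 1) .neg φ)) x := by
  simp only [op]
  congr 1
  funext t
  rcases Nat.lt_or_ge t i with h | h
  · simp only [setF, show ¬ t = i by omega, show ¬ t = i + 1 by omega,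
      show ¬ t = i + 1 + 1 by omega, if_false]
  rcases Nat.lt_or_ge (i + 2) t with h' | h'
  · simp only [setF, show ¬ t = i by omega, show ¬ t = i + 1 by omega,
      show ¬ t = i + 1 + 1 by omega, if_false]
  have n1 : ¬ i = i + 1 := by omega
  have n2 : ¬ i = i + 1 + 1 := by omega
  have n3 : ¬ i + 1 = i := by omega
  have n4 : ¬ i + 1 + 1 = i := by omega
  have n5 : ¬ i + 1 = i + 1 + 1 := by omega
  have n6 : ¬ i + 1 + 1 = i + 1 := by omega
  obtain h2 | h2 | h2 : t = i ∨ t = i + 1 ∨ t = i + 1 + 1 := by omega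
  all_goals
    rw [h2]
    simp only [setF, n1, n2, n3, n4, n5, n6, if_true, if_false]
  all_goals abel

theorem elem {y z : Word} (h : Elem y z) (φ : (ℕ → X) → ℕ) : ev y φ = ev z φ := by
  funext x
  rcases h with ⟨i, j, g, h⟩ | i | i | i | i | i | i | i | i | i | i | i | i | i | i
  · exact comm_op i j g h φ x
  · exact zig i φ x
  · exact zag i φ x
  · exact capP i φ x
  · exact capN i φ x
  · exact cupP i φ x
  · exact cupN i φ x
  · exact r1cupP i φ x
  · exact r1cupN i φ x
  · exact r1capP i φ x
  · exact r1capN i φ x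
  · exact r2P i φ x
  · exact r2N i φ x
  · exact r3P i φ x
  · exact r3N i φ x

theorem inv {m n : ℕ} {w w' : Word} (h : Iso m n w w') (φ : (ℕ → X) → ℕ) : ev w φ = ev w' φ := by
  induction h with
  | rel w w' h =>
    obtain ⟨u, y, z, v, he, -, -⟩ := h
    rw [ev_append, ev_append, ev_append, ev_append, elem he]
  | refl w => rfl
  | symm w w' _ ih => exact ih.symm
  | trans w w' w'' _ _ ih1 ih2 => exact ih1.trans ih2

end

theorem t : S_INV := by
  intro q _ m n w w' h φ x
  rw [inv h φ]

end Pool.Agent.Helper10.LN.INV
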